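import Pool.Agent.V11168.MV.Clo2

/-!
# Abundance for projective manifolds with closed multivalued holomorphic 1-forms over orbifolds of general type

Let `Z` be a projective variety with function field `L`, `G` a finite group of birational automorphisms of
`Z`, and `X` a projective manifold birational to `Z / G`; the function field of `X` is the field of
invariants `fixedField G`, and `Z → X` is a Galois cover which may be ramified. Let `f : X → B` be a
dominant rational map, `dim B = d`, `dim X = d + (r + 1)`, with `M ⊂ fixedField G` the function field of `B`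
(`B` may be a point, `d = 0`), and let `B'` with the function field `M' ⊂ L` be the Stein factorization of
`Z → B`: `M'` is algebraically closed in `L`, of transcendence degree `d`.

Let `V` be a space of closed holomorphic 1-forms on `Z` which, considered as multivalued 1-forms on `X`, are
holomorphic on `X` (`IsMultiRegOn`): along each prime divisor `v` over `X`, their values on the vector fields
on `X` which are regular along `v` (lifted to `Z`) are regular along the prime divisors `w` over `v`. For
example the forms on a spectral cover `Z` of `X` given by the factors of symmetric differentials on `X` or by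
an equivariant harmonic map to a Euclidean building. It is assumed that `r + 1` forms in `V` are linearly
independent on the general fibre of `Z → B'` (`IndepOver`). There is no condition of Reid-Tai type on the
action of `G`.

`Δ_B` is a divisor on `B`, given by its multiplicities `δB u` along all prime divisors `u` over `B`, with
`e ≤ c (1 - δB u)` if the prime divisor `w` over `Z` has ramification index `e` over `X` and lies over `u`
with multiplicity `c` (`MultBound`), that is, `δB u ≤ 1 - 1 / c'`, where `c' = c / e` is the multiplicity over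
`u` of the prime divisor over `X` below `w`. So one can take `Δ_B = 0`, or on suitable models the orbifold
base of Campana.

Let `W = constFields (fibreForms M' V)` be the space of the vector fields on the generic fibre of `Z → B'` on
which all forms in `V` are constant; for the upper bounds it is assumed that they are regular on some
projective model of the generic fibre (`IsRegularOnModel`), and `K_B + Δ_B` of general type is only assumed
for the equality `κ = ν`.
-/

set_option autoImplicit false

open FF IntermediateField Pool.Agent.W619.PQ Pool.Agent.W619.TW Pool.Agent.W619.Y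
  Pool.Agent.Y173.QA Pool.Agent.Y173.QM Pool.Agent.Y174 Pool.Agent.V11168.Rel
  Pool.Agent.V11168.MV

namespace Pool.Agent.Results.MP_5ff3c6_ag.ClosedMultivaluedForms

/-- `κ (X) ≥ h` for the projective manifolds of dimension `n` over `k` with the function field `K`: for
some `m ≥ 1` there are `h + 1` regular `m`-fold pluricanonical forms whose `h` ratios are algebraically
independent. -/
def KodairaGe (k K : Type) [Field k] [Field K] [Algebra k K] (n h : ℕ) : Prop := KodTr k K n h

/-- `ν (X) ≤ h` for the canonical bundle of the projective manifolds of dimension `n` over `k` with the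
function field `K`: for every divisor `A` there is `C` with `h⁰ (m K_X + A) ≤ C m ^ h` for all
`m ≥ 1`. -/
def NumericalLe (k K : Type) [Field k] [Field K] [Algebra k K] (n h : ℕ) : Prop :=
  NumLe k K n (fun _ => False) h

/-- **Theorem.** Let `Z`, `G`, `X`, `f : X → B`, `B'` and `V` be as above, `s` the dimension of the space `W`
of the constant vector fields of the generic fibre `F` of `Z → B'`, and `a = (r + 1) - s`. Then `κ (F) ≥ a`,
and `κ (X) ≥ κ (K_B + Δ_B) + a` for all `Δ_B` as above. If `W` is regular on a model, then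
`κ (F) = ν (F) = a` and `ν (X) ≤ dim B + a`; so if moreover `K_B + Δ_B` is of general type for some `Δ_B`, or
if `B` is a point, then `κ (X) = ν (X) = dim B + a`. (`PairKod ℂ M d δB h` means
`κ (K_B + Δ_B) ≥ h`.) -/
theorem result {L : Type} [Field L] [Algebra ℂ L] [Algebra.EssFiniteType ℂ L]
    -- the quotient
    (G : Subgroup (L ≃ₐ[ℂ] L)) [Finite G]
    -- the base and the Stein factorization
    (M M' : IntermediateField ℂ L) [Algebra.EssFiniteType ℂ M] [Algebra.EssFiniteType ℂ M']
    (hMX : ∀ x ∈ M, x ∈ fixedField G) (hMM' : M ≤ M') (hMcl : ∀ x : L, IsAlgebraic M' x → x ∈ M')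
    {d r : ℕ} (hM : Algebra.trdeg ℂ M = d) (hM' : Algebra.trdeg ℂ M' = d)
    (hn : Algebra.trdeg ℂ L = (d + (r + 1) : ℕ))
    -- the forms
    (V : Submodule ℂ (Derivation ℂ L L →ₗ[L] L)) (hreg : ∀ θ ∈ V, IsRegForm (d + (r + 1)) θ)
    (hcl : ∀ θ ∈ V, IsClosedForm θ) (hV : ∀ θ ∈ V, IsMultiRegOn G (d + (r + 1)) θ)
    (hind : ∃ θ : Fin (r + 1) → Derivation ℂ L L →ₗ[L] L, (∀ i, θ i ∈ V) ∧
      IndepOver (m := d) M' θ) :
    ∃ a : ℕ, a + Module.finrank M' (constFields (fibreForms M' V)) = r + 1 ∧
      KodairaGe M' L (r + 1) a ∧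
      (∀ δB : Place ℂ M → ℝ, MultBound (d + (r + 1)) G M δB →
        ∀ h, PairKod ℂ M d δB h → KodairaGe ℂ (fixedField G) (d + (r + 1)) (h + a)) ∧
      (IsRegularOnModel (constFields (fibreForms M' V)) →
        (∀ h, (KodairaGe M' L (r + 1) h ↔ h ≤ a) ∧ (NumericalLe M' L (r + 1) h ↔ a ≤ h)) ∧
        NumericalLe ℂ (fixedField G) (d + (r + 1)) (d + a) ∧
        (((∃ δB : Place ℂ M → ℝ, MultBound (d + (r + 1)) G M δB ∧ PairKod ℂ M d δB d) ∨ d = 0) →
          ∀ h, (KodairaGe ℂ (fixedField G) (d + (r + 1)) h ↔ h ≤ d + a) ∧
            (NumericalLe ℂ (fixedField G) (d + (r + 1)) h ↔ d + a ≤ h))) := by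
  obtain ⟨θ, hθ, hθi⟩ := hind
  -- the numbers do not depend on `δB`
  have key : ∀ δB : Place ℂ M → ℝ, MultBound (d + (r + 1)) G M δB →
      ∃ a : ℕ, a + Module.finrank M' (constFields (fibreForms M' V)) = r + 1 ∧
      (∀ h, PairKod ℂ M d δB h → PairKod ℂ (fixedField G) (d + (r + 1)) (fun _ => 0) (h + a)) ∧
      (IsRegularOnModel (constFields (fibreForms M' V)) →
        PairNum ℂ (fixedField G) (d + (r + 1)) (fun _ => 0) (d + a) ∧
        NumLe M' L (r + 1) (fun _ => False) a) ∧ KodTr M' L (r + 1) a := fun δB hδ =>
    clo_main hMM' hMcl hM hM' hn G hMX hreg hcl hV hδ hθ hθi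
  have hfd := fd_fixed G
  -- `Δ_B = 0` satisfies the condition
  have hzero : MultBound (d + (r + 1)) G M (fun _ => 0) := by
    intro v w e u c hw hwv hwu
    obtain ⟨f, hf0, hf⟩ := u.surj
    have h1 : w.ord (f : L) = c := by
      have h2 := hwu.2 f
      rw [hf, mul_one] at h2
      exact h2
    have h3 : w.ord (f : L) = e * v.ord (⟨(f : L), hMX _ f.2⟩ : fixedField G) :=
      hwv.2 ⟨(f : L), hMX _ f.2⟩
    rw [h1] at h3
    have h4 : (0 : ℤ) < c := by exact_mod_cast hwu.1
    have h5 : (0 : ℤ) < e := by exact_mod_cast hwv.1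
    have h6 : (1 : ℤ) ≤ v.ord (⟨(f : L), hMX _ f.2⟩ : fixedField G) := by
      by_contra h7
      push Not at h7
      nlinarith
    have h8 : (e : ℤ) ≤ c := by nlinarith
    have h9 : (e : ℝ) ≤ c := by exact_mod_cast h8
    simpa using h9
  obtain ⟨a, ha, h1, h2, h3⟩ := key _ hzero
  have key2 : ∀ δB : Place ℂ M → ℝ, MultBound (d + (r + 1)) G M δB →
      ∀ h, PairKod ℂ M d δB h → PairKod ℂ (fixedField G) (d + (r + 1)) (fun _ => 0) (h + a) := by
    intro δB hδ h hh
    obtain ⟨a', ha', h4, -⟩ := key δB hδ
    have h5 : a' = a := by omega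
    rw [h5] at h4
    exact h4 h hh
  have hessF : Algebra.EssFiniteType M' L := ess_fib ‹_›
  refine ⟨a, ha, h3, fun δB hδ h hh => ?_, fun hmod => ?_⟩
  · unfold KodairaGe
    rw [← pairKod_zero]
    exact key2 δB hδ h hh
  obtain ⟨h4, h5⟩ := h2 hmod
  unfold KodairaGe NumericalLe
  refine ⟨fun h => ?_, ?_, fun hB h => ?_⟩
  · have h6 : PairKod M' L (r + 1) (fun _ => 0) a := pairKod_zero.2 h3
    have h7 : PairNum M' L (r + 1) (fun _ => 0) a := pairNum_zero.2 h5
    rw [← pairKod_zero, ← pairNum_zero]
    exact ⟨⟨fun h8 => pair_le h8 h7, fun h8 => pairKod_mono h8 h6⟩,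
      ⟨fun h8 => pair_le h6 h8, fun h8 => pairNum_mono h8 h7⟩⟩
  · rw [← pairNum_zero]
    exact h4
  · have h6 : PairKod ℂ (fixedField G) (d + (r + 1)) (fun _ => 0) (d + a) := by
      rcases hB with ⟨δB, hδ, hgt⟩ | hd
      · exact key2 δB hδ d hgt
      · subst hd
        exact key2 _ hzero 0 (Pool.Agent.V11168.Pair.pairKod_point hM _)
    rw [← pairKod_zero, ← pairNum_zero]
    exact ⟨⟨fun h8 => pair_le h8 h4, fun h8 => pairKod_mono h8 h6⟩,
      ⟨fun h8 => pair_le h6 h8, fun h8 => pairNum_mono h8 h4⟩⟩

end Pool.Agent.Results.MP_5ff3c6_ag.ClosedMultivaluedForms
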