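import Pool.Agent.V11168.Rel.Cons

/-!
# Abundance for quotients of fibre spaces over bases of general type, with closed relative 1-forms

Let `Z → B` be an algebraic fibre space, `dim B = d ≥ 1`, `dim Z = d + (r + 1)`, with the function
fields `M ⊂ L`, `B` of general type, `V` a space of closed holomorphic 1-forms on `Z` (regular along
all prime divisors over `Z`), `r + 1` of which are linearly independent on the general fibre, and `G` a
finite group of birational automorphisms of `Z` which preserves `V`; it need not preserve the map to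
`B`. Let `X` be a projective manifold (or a minimal variety) birational to `Z / G`; its function field
is the field of invariants `fixedField G`.

For example `Z` is (a resolution of) a closed subvariety of `B × A`, where `A` is an abelian variety,
`G` a finite group of automorphisms of `A` (or of `B × A`) which preserve `Z`, and `V` the space of
the restrictions of the invariant `1`-forms of `A`.

`fibreForms M V` is the space of the restrictions of the forms in `V` to the generic fibre, with
coefficients in `M`, and `constFields (fibreForms M V)` the space of the vector fields on the generic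
fibre on which all these forms are constant (for subvarieties of `B × A`: the Lie algebra of the
stabilizer of the generic fibre); they are assumed to be regular on some projective model of the
generic fibre (`IsRegularOnModel`).

`ReidTaiOver d (r + 1) G M V`: if `g ≠ 1` in `G`, of order `e`, fixes pointwise a prime divisor `w`
over `Z`, and `θ 1, ..., θ (r + 1)` in `V`, independent on the general fibre, are eigenvectors of `g`
with the eigenvalues `ζ ^ a 1, ..., ζ ^ a (r + 1)`, `0 ≤ a i < e`, `ζ` a primitive `e`-th root of
unity, then `c + a 1 + ... + a (r + 1) ≥ e`, where `c = 0` if `w` dominates `B`, and `c` is any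
positive order along `w` of a rational function on `B` otherwise. For example it is satisfied for
`G = {1, σ}`, if `σ` acts as `-1` on `V` and the fibres have dimension at least two.
-/

set_option autoImplicit false

open IntermediateField Pool.Agent.W619.PQ Pool.Agent.W619.TW Pool.Agent.W619.Y Pool.Agent.Y173.QA
  Pool.Agent.Y173.QM Pool.Agent.V11168.Rel

namespace Pool.Agent.Results.MP_5ff3c6_ag.FibreSpaceQuotients

/-- The Kodaira dimension of the projective varieties of dimension `n` over `k` with the function
field `K` is `a` (and not `-∞`): for some `m ≥ 1` there are `h + 1` regular `m`-fold pluricanonical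
forms whose `h` ratios are algebraically independent (`KodTr`) exactly for `h ≤ a`. -/
def HasKodairaDim (k K : Type) [Field k] [Field K] [Algebra k K] (n a : ℕ) : Prop :=
  ∀ h, KodTr k K n h ↔ h ≤ a

/-- The numerical dimension of the canonical bundle of the projective varieties of dimension `n` over
`k` with the function field `K` is `a`: for every divisor `A` there is `C` with
`h⁰ (m K + A) ≤ C m ^ h` for all `m ≥ 1` (`NumLe`), exactly for `h ≥ a`. -/
def HasNumericalDim (k K : Type) [Field k] [Field K] [Algebra k K] (n a : ℕ) : Prop :=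
  ∀ h, NumLe k K n (fun _ => False) h ↔ a ≤ h

theorem build {k K : Type} [Field k] [CharZero k] [Field K] [Algebra k K] {n a : ℕ}
    (hK : Algebra.trdeg k K = n) (h1 : KodTr k K n a) (h2 : NumLe k K n (fun _ => False) a) :
    HasKodairaDim k K n a ∧ HasNumericalDim k K n a :=
  ⟨fun _ => ⟨fun h3 => Pool.Agent.V11168.Abund.le_of_kod_num hK h3 h2,
    fun h3 => Pool.Agent.V11168.Abund.kodTr_mono h3 h1⟩,
    fun _ => ⟨fun h3 => Pool.Agent.V11168.Abund.le_of_kod_num hK h1 h3,
    fun h3 => Pool.Agent.V11168.Abund.numLe_mono h3 h2⟩⟩

/-- **Theorem.** Let `Z → B`, `M ⊂ L`, `V`, `G` and `X` be as above. Let `s` be the dimension of the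
space of the constant vector fields of the generic fibre, and `a = (r + 1) - s`. Then `κ = ν = a` for
the generic fibre, and `κ (X) = ν (X) = κ (Z) = ν (Z) = d + a`; in particular abundance holds for
`X`. -/
theorem result {L : Type} [Field L] [Algebra ℂ L] [Algebra.EssFiniteType ℂ L]
    -- the base
    (M : IntermediateField ℂ L) [Algebra.EssFiniteType ℂ M]
    (hMcl : ∀ x : L, IsAlgebraic M x → x ∈ M) {d r : ℕ} (hd : 1 ≤ d)
    (hM : Algebra.trdeg ℂ M = d) (hn : Algebra.trdeg ℂ L = (d + (r + 1) : ℕ))
    (hgt : KodTr ℂ M d d)
    -- the group and the forms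
    (G : Subgroup (L ≃ₐ[ℂ] L)) [Finite G]
    (V : Submodule ℂ (Derivation ℂ L L →ₗ[L] L)) (hreg : ∀ θ ∈ V, IsRegForm (d + (r + 1)) θ)
    (hcl : ∀ θ ∈ V, IsClosedForm θ)
    (hstab : ∀ g ∈ G, ∀ θ ∈ V, ∃ θ' ∈ V, IsImage g θ θ')
    (hind : ∃ θ : Fin (r + 1) → Derivation ℂ L L →ₗ[L] L, (∀ i, θ i ∈ V) ∧
      IndepOver (m := d) M θ)
    (hmod : IsRegularOnModel (constFields (fibreForms M V)))
    (hRT : ReidTaiOver d (r + 1) G M V) :
    ∃ a : ℕ, a + Module.finrank M (constFields (fibreForms M V)) = r + 1 ∧
      HasKodairaDim M L (r + 1) a ∧ HasNumericalDim M L (r + 1) a ∧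
      HasKodairaDim ℂ (fixedField G) (d + (r + 1)) (d + a) ∧
      HasNumericalDim ℂ (fixedField G) (d + (r + 1)) (d + a) ∧
      HasKodairaDim ℂ L (d + (r + 1)) (d + a) ∧ HasNumericalDim ℂ L (d + (r + 1)) (d + a) := by
  have _ := hd
  obtain ⟨θ, hθ, hθi⟩ := hind
  obtain ⟨a, ha, h1, h2, h3⟩ := rel_main hMcl hM hn G hreg hcl hstab hθ hθi
  obtain ⟨h4, h5, h6⟩ := h3 hmod
  have h7 := h2 hRT d hgt
  obtain ⟨p1, p2⟩ := build (Pool.Agent.Y174.trdeg_LK (L := M) hM hn) h1 h4
  obtain ⟨p3, p4⟩ := build (trdeg_fixed G hn) h7 h6
  obtain ⟨p5, p6⟩ := build hn (kod_up G hn h7) h5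
  exact ⟨a, ha, p1, p2, p3, p4, p5, p6⟩

end Pool.Agent.Results.MP_5ff3c6_ag.FibreSpaceQuotients
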