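import Pool.Agent.V1157.KL.CycB

/-!
# Abundance for fibre products of families of superelliptic curves over a variety of log general type

Let `V` be any variety of dimension `p` with the function field `K0`, `y 0, …, y n` nonzero rational
functions on `V` whose ratios define a generically finite map of `V` to projective space, and `B` any
set of prime divisors over `V`, such that the complement of `B` and of the zeros and poles of the
ratios `y i / y j` is of log general type; there is no condition on the singularities of these
divisors. There is a number `μ` which depends only on these data, such that the following holds for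
all projective varieties `X` with canonical singularities (for instance minimal varieties, or
manifolds) of any dimension `p + e`, with a dominant rational map `X ⇢ V`, such that:

* (the base) for every prime divisor `P` of `X` which does not dominate `V`: either the orders of two
  of the functions `y i` along `P` differ by at least `μ`, or all `y i` have the same order along `P`,
  and the ramification index of `P` over `V` is at least `2` if `P` lies over a prime divisor in `B`;
* (the fibres) `X` is birational to the fibre product over `V'` of `e` arbitrary cyclic covers of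
  `V' × P^1`, where the function field `F` of `V'` is the algebraic closure of `ℂ(V)` in `ℂ(X)`; that
  is, `ℂ(X)` is generated over `F` by `x j`, `z j`, `j < e`, the `x j` are algebraically independent
  over `F`, and

  `z j ^ m j = c j * ∏ k, g j k (x j) ^ a j k`, `m j ≥ 1`, `a j k ≥ 0`, `c j ≠ 0` in `F`,

  where the `g j k` are polynomials over `F`, `g j k` of degree `d j k`, square free and pairwise
  without common roots (for given `j`).

Let `W j = ∑ k, d j k * (1 - gcd (m j, a j k) / m j) + 1 - gcd (m j, ∑ k, a j k * d j k) / m j`; if `C j`
is the curve over `F` given by the `j`-th equation, of genus `g j`, and of degree `n j` over the line,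
then `2 g j - 2 = n j * (W j - 2)`. Then `κ(X) = ν(X)`: `K_X` is pseudo-effective if and only if
`W j ≥ 2` (`g j ≥ 1`) for all `j`, and then `κ(X) = ν(X)` is `p` plus the number of the `j` with
`W j > 2` (`g j ≥ 2`); otherwise `κ(X) = ν(X) = -∞`. For minimal `X` this means that `K_X` is semiample
(Kawamata). The moduli of the curves may vary, and some of the curves may be elliptic: then the
canonical divisor of `X` is not big.

The language and the definitions of `Pool.Agent.Y172` are used: `X` is given by the homogeneous
coordinates `v` of its generic point, with values in the function field `K` of `X`; the prime divisors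
of `X` are places `P` of `K`, `P.ord` is the order along `P`.

Proof: products of the pull backs of pluricanonical forms of the base (`Base`, `Comb`), and of forms
along the fibres which are regular along all prime divisors, vertical ones included (`cyc_low`) give
the lower bound; the upper bound comes from traces to the field of `V' × P^1 × ... × P^1` (`cyc_can`).
-/

set_option autoImplicit false

open FF Pool.Agent.W602.GT Pool.Agent.Y172 Pool.Agent.Y191 Pool.Agent.V1157.KL

namespace Pool.Agent.Results.MP_5ff3c6_ag.SuperellipticFibres

section

variable {K : Type} [Field K] [Algebra ℂ K] {N : ℕ}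

/-- `X` is a projective variety of dimension `n` with canonical singularities, `v` is its generic
point. -/
def IsCanonicalVariety (v : Fin (N + 1) → K) (n : ℕ) : Prop :=
  NormalModel v ∧ Algebra.trdeg ℂ K = n ∧ Canonical v n

/-- The prime divisors of `X` dominate the variety `V` with the function field `K0`, or satisfy the
condition on the multiplicities. -/
def HighOver (K0 : Type) [Field K0] [Algebra ℂ K0] [Algebra K0 K] {n : ℕ} (y : Fin (n + 1) → K0)
    (B : Place ℂ K0 → Prop) (μ : ℕ) (v : Fin (N + 1) → K) : Prop :=
  ∀ P, IsPrimeDivisor v P → (∀ g : K0, P.ord (algebraMap K0 K g) = 0) ∨ Mult y B μ P 0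

/-- Let `F` be the algebraic closure of `L` in `K`. The field `K` is generated over `F` by elements
`x j`, `z j` with `z j ^ m j = c j * ∏ k, g j k (x j) ^ a j k`, where the `x j` are algebraically
independent over `F`, `m j ≥ 1`, `c j` is a nonzero element of `F`, and the `g j k` are polynomials
over `F` of degree `d j k`, square free and pairwise without common roots for given `j`. -/
def CyclicFibres (L : IntermediateField ℂ K) {e : ℕ} (m s : Fin e → ℕ)
    (d a : ∀ j, Fin (s j) → ℕ) : Prop :=
  ∃ (x z c : Fin e → K) (g : ∀ j, Fin (s j) → Polynomial (acl ℂ (L : Set K))),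
    CycData (acl ℂ (L : Set K)) x z m s g a c ∧ ∀ j k, (g j k).natDegree = d j k

end

/-- `W = ∑ k, d k * (1 - gcd (m, a k) / m) + 1 - gcd (m, ∑ k, a k * d k) / m` -/
def weight (m : ℕ) {s : ℕ} (d a : Fin s → ℕ) : ℚ :=
  ∑ k, d k * (1 - (m.gcd (a k) : ℚ) / m) + (1 - (m.gcd (∑ k, a k * d k) : ℚ) / m)

/-- If all `W j` are at least `2` then the Kodaira dimension and the numerical dimension (with respect
to any effective integral divisor `A`) of `X` are `p` plus the number of the `j` with `W j > 2`;
otherwise both are `-∞`. -/
def Abundance {K : Type} [Field K] [Algebra ℂ K] {N : ℕ} (v : Fin (N + 1) → K) (n p : ℕ) {e : ℕ}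
    (W : Fin e → ℚ) : Prop :=
  ((∀ j, 2 ≤ W j) →
    kodairaDim v n 0 = ((p + (Finset.univ.filter fun j => 2 < W j).card : ℕ) : WithBot ℕ) ∧
    ∀ A, Effective v A → Integral v A →
      numericalDim v n 0 A = ((p + (Finset.univ.filter fun j => 2 < W j).card : ℕ) : EReal)) ∧
  ((∃ j, W j < 2) → kodairaDim v n 0 = ⊥ ∧ ∀ A, Effective v A → numericalDim v n 0 A = ⊥)

theorem wsum_eq {K : Type} [Field K] [Algebra ℂ K] {F : IntermediateField ℂ K} {e : ℕ}
    {m s : Fin e → ℕ} {g : ∀ j, Fin (s j) → Polynomial F} {a d : ∀ j, Fin (s j) → ℕ}
    (hd : ∀ j k, (g j k).natDegree = d j k) (j : Fin e) :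
    wsum m s g a j = weight (m j) (d j) (a j) := by
  unfold wsum weight wtc
  simp only [hd]

/-- **Abundance.** Let `K0` be the function field of a variety `V` of dimension `p`, let `y i` be
nonzero elements of `K0` such that `K0` is algebraic over the field generated by their ratios, and let
`B` be a set of places, such that the complement in `V` of the prime divisors in `B` and of the zeros
and poles of the ratios is of log general type. Then there is a number `μ` such that for all projective
varieties `X` of dimension `p + e` with canonical singularities, with a dominant rational map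
`X ⇢ V`, such that the prime divisors of `X` dominate `V` or satisfy the condition on the
multiplicities (`HighOver`), and fibres as in `CyclicFibres`: `κ(X) = ν(X)` is `p` plus the number of
the `j` with `W j > 2`, if `W j ≥ 2` for all `j`, and `-∞` otherwise. -/
theorem result (K0 : Type) [Field K0] [Algebra ℂ K0] [Algebra.EssFiniteType ℂ K0] (n p : ℕ)
    (y : Fin (n + 1) → K0) (B : Place ℂ K0 → Prop) (hy : ∀ i, y i ≠ 0)
    (halg : ∀ z : K0, IsAlgebraic (IntermediateField.adjoin ℂ (Set.range fun i => y i / y 0)) z)
    (hgt : LogGeneralType ℂ K0 p (fun P => (∃ i, P.ord (y i) ≠ P.ord (y 0)) ∨ B P)) :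
    ∃ μ : ℕ, ∀ (K : Type) [Field K] [Algebra ℂ K] [Algebra K0 K] [IsScalarTower ℂ K0 K]
      (N e : ℕ) (m s : Fin e → ℕ) (d a : ∀ j, Fin (s j) → ℕ) (v : Fin (N + 1) → K),
      IsCanonicalVariety v (p + e) → HighOver K0 y B μ v → CyclicFibres (img K0 K) m s d a →
      Abundance v (p + e) p fun j => weight (m j) (d j) (a j) := by
  obtain ⟨μ, hμ⟩ := cyc_lgt K0 n p y B hy halg hgt
  refine ⟨μ, ?_⟩
  rintro K _ _ _ _ N e m s d a v ⟨hv, hn, hcan⟩ hH ⟨x, z, c, g, hc, hd⟩
  obtain ⟨h1, h2⟩ := hμ K N e v hv hn hcan hH m s x z c a g hc
  simp only [wsum_eq hd] at h1 h2
  exact ⟨h2, h1⟩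

end Pool.Agent.Results.MP_5ff3c6_ag.SuperellipticFibres
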